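import Pool.Agent.W201.NT.StmG

/-!
Project NT (helper201), part SC: semiconcavity of the squared distance with the constant
`1/4 + ε`. The proofs follow `Pool.Agent.Helper381.Energy` and `Pool.Agent.Helper381.Loc`.
-/

set_option autoImplicit false

namespace Pool.Agent.W249.NT

open Metric Set Pool.Agent.Helper381

universe u v

section

variable {E : Type v} [NormedAddCommGroup E] [NormedSpace ℝ E] (g : MetCoef E)

/-- semiconcavity of the discrete energy -/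
theorem energy_scc_eps {ρ A ε : ℝ} (hε : 0 ≤ ε) (hρ : ρ ≤ g.r) (hA : 0 ≤ A)
    (hsmall : g.C * A ^ 2 + g.C * A / 2 + g.C * ρ / 4 ≤ ε * g.lam) {n : ℕ} (hn : 0 < n)
    (m : ℕ → E) (e : E) (ha : ∀ i ≤ n, m i + ((i : ℝ) / n) • e ∈ ball g.x₀ ρ)
    (hb : ∀ i ≤ n, m i - ((i : ℝ) / n) • e ∈ ball g.x₀ ρ)
    (hm : ∀ i < n, ‖m (i + 1) - m i‖ ≤ A / n) :
    (g.energy n (fun i => m i + ((i : ℝ) / n) • e) +
      g.energy n (fun i => m i - ((i : ℝ) / n) • e)) / 2 ≤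
      g.energy n m + (1 + 4 * ε) * g.G g.x₀ e e := by
  have hn' : (0 : ℝ) < n := by exact_mod_cast hn
  have h00 : g.x₀ ∈ ball g.x₀ g.r := mem_ball_self g.rpos
  let a : ℕ → E := fun i => m i + ((i : ℝ) / n) • e
  let b : ℕ → E := fun i => m i - ((i : ℝ) / n) • e
  let η : E := -((2 : ℝ) / n) • e
  let β : ℕ → E := fun i => m (i + 1) - m i
  have e0 : ∀ i, (1 / 2 : ℝ) • (a i + b i) = m i := by
    intro i; simp only [a, b]; module
  have e1 : ∀ i, β i - (1 / 2 : ℝ) • η = a (i + 1) - a i := by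
    intro i
    simp only [β, η, a]
    push_cast
    have : (((i : ℝ) + 1) / n) = (i : ℝ) / n + 1 / n := by ring
    rw [this]
    module
  have e2 : ∀ i, β i + (1 / 2 : ℝ) • η = b (i + 1) - b i := by
    intro i
    simp only [β, η, b]
    push_cast
    have : (((i : ℝ) + 1) / n) = (i : ℝ) / n + 1 / n := by ring
    rw [this]
    module
  set err : ℕ → ℝ := fun i => g.C * ‖a i - b i‖ ^ 2 * ‖β i‖ ^ 2 +
    g.C / 2 * ‖a i - b i‖ * ‖β i‖ * ‖η‖ + g.C * ρ / 4 * ‖η‖ ^ 2 with herr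
  have hstep : ∀ i ∈ Finset.range n,
      (g.G (a i) (a (i + 1) - a i) (a (i + 1) - a i) +
        g.G (b i) (b (i + 1) - b i) (b (i + 1) - b i)) / 2 ≤
        g.G (m i) (β i) (β i) + 1 / 4 * g.G g.x₀ η η + err i := by
    intro i hi
    rw [Finset.mem_range] at hi
    have := g.step hρ (ha i hi.le) (hb i hi.le) (β i) η
    change |(g.G (a i) (β i - (1 / 2 : ℝ) • η) (β i - (1 / 2 : ℝ) • η) +
      g.G (b i) (β i + (1 / 2 : ℝ) • η) (β i + (1 / 2 : ℝ) • η)) / 2 -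
      g.G ((1 / 2 : ℝ) • (a i + b i)) (β i) (β i) - 1 / 4 * g.G g.x₀ η η| ≤
      g.C * ‖a i - b i‖ ^ 2 * ‖β i‖ ^ 2 +
    g.C / 2 * ‖a i - b i‖ * ‖β i‖ * ‖η‖ + g.C * ρ / 4 * ‖η‖ ^ 2 at this
    rw [e1, e2, e0, abs_le] at this
    simp only [herr]
    linarith [this.2]
  have hsum := Finset.sum_le_sum hstep
  have hηn : ‖η‖ = 2 / n * ‖e‖ := by
    simp only [η]
    rw [norm_smul, norm_neg, Real.norm_of_nonneg (by positivity)]
  have hδn : ∀ i < n, ‖a i - b i‖ ≤ 2 * ‖e‖ := by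
    intro i hi
    have : a i - b i = (2 * ((i : ℝ) / n)) • e := by simp only [a, b]; module
    rw [this, norm_smul, Real.norm_of_nonneg (by positivity)]
    have h1 : (i : ℝ) / n ≤ 1 := by
      rw [div_le_one hn']; exact_mod_cast hi.le
    have := norm_nonneg e
    nlinarith
  have hsumη : ∑ _i ∈ Finset.range n, ‖η‖ = 2 * ‖e‖ := by
    rw [Finset.sum_const, Finset.card_range, nsmul_eq_mul, hηn]
    field_simp
  have hsumη2 : (n : ℝ) * ∑ _i ∈ Finset.range n, ‖η‖ ^ 2 = 4 * ‖e‖ ^ 2 := by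
    rw [Finset.sum_const, Finset.card_range, nsmul_eq_mul, hηn]
    field_simp
    ring
  have herrb := g.err_bound (ρ := ρ) hA hn (2 * ‖e‖) (fun i => ‖a i - b i‖) (fun i => ‖β i‖)
    (fun _ => ‖η‖) (fun _ _ => norm_nonneg _) (fun _ _ => norm_nonneg _)
    (fun _ _ => norm_nonneg _) hδn (by positivity) (by rw [hsumη2]; ring_nf; rfl) hsumη.le hm
  rw [hsumη2] at herrb
  have hX : g.lam * ‖e‖ ^ 2 ≤ g.G g.x₀ e e := g.lower _ h00 _
  have hGη : (n : ℝ) * ∑ _i ∈ Finset.range n, g.G g.x₀ η η = 4 * g.G g.x₀ e e := by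
    rw [Finset.sum_const, Finset.card_range, nsmul_eq_mul]
    simp only [η, map_smul, LinearMap.smul_apply, smul_eq_mul]
    field_simp
    ring
  have hE : g.energy n m = n * ∑ i ∈ Finset.range n, g.G (m i) (β i) (β i) := rfl
  have hEa : g.energy n (fun i => m i + ((i : ℝ) / n) • e) = n * ∑ i ∈ Finset.range n,
      g.G (a i) (a (i + 1) - a i) (a (i + 1) - a i) := rfl
  have hEb : g.energy n (fun i => m i - ((i : ℝ) / n) • e) = n * ∑ i ∈ Finset.range n,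
      g.G (b i) (b (i + 1) - b i) (b (i + 1) - b i) := rfl
  have hs1 : ∑ i ∈ Finset.range n, (g.G (a i) (a (i + 1) - a i) (a (i + 1) - a i) +
        g.G (b i) (b (i + 1) - b i) (b (i + 1) - b i)) / 2 =
      (∑ i ∈ Finset.range n, g.G (a i) (a (i + 1) - a i) (a (i + 1) - a i) +
        ∑ i ∈ Finset.range n, g.G (b i) (b (i + 1) - b i) (b (i + 1) - b i)) / 2 := by
    rw [← Finset.sum_div, Finset.sum_add_distrib]
  have hs2 : ∑ i ∈ Finset.range n, (g.G (m i) (β i) (β i) + 1 / 4 * g.G g.x₀ η η + err i) =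
      ∑ i ∈ Finset.range n, g.G (m i) (β i) (β i) +
        1 / 4 * ∑ _i ∈ Finset.range n, g.G g.x₀ η η + ∑ i ∈ Finset.range n, err i := by
    rw [Finset.sum_add_distrib, Finset.sum_add_distrib, ← Finset.mul_sum]
  rw [hs1, hs2] at hsum
  have hm' := mul_le_mul_of_nonneg_left hsum hn'.le
  have h9 := mul_le_mul_of_nonneg_right hsmall (by positivity : (0 : ℝ) ≤ 4 * ‖e‖ ^ 2)
  have herrb' : n * ∑ i ∈ Finset.range n, err i ≤
    (g.C * A ^ 2 + g.C * A / 2 + g.C * ρ / 4) * (4 * ‖e‖ ^ 2) := herrb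
  rw [hE, hEa, hEb]
  have hX' := mul_le_mul_of_nonneg_left hX hε
  have h10 : n * ∑ i ∈ Finset.range n, err i ≤ 4 * (ε * g.G g.x₀ e e) := by
    have h11 : ε * g.lam * (4 * ‖e‖ ^ 2) = 4 * (ε * (g.lam * ‖e‖ ^ 2)) := by ring
    linarith
  have h12 : (n : ℝ) * (∑ i ∈ Finset.range n, g.G (m i) (β i) (β i) +
      1 / 4 * ∑ _i ∈ Finset.range n, g.G g.x₀ η η + ∑ i ∈ Finset.range n, err i) =
      n * ∑ i ∈ Finset.range n, g.G (m i) (β i) (β i) +
      1 / 4 * (n * ∑ _i ∈ Finset.range n, g.G g.x₀ η η) + n * ∑ i ∈ Finset.range n, err i := by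
    ring
  rw [h12, hGη] at hm'
  linarith


end

section

variable {M : Type u} {E : Type v} [MetricSpace M] [NormedAddCommGroup E] [NormedSpace ℝ E]
  (c : Loc M E)

open Pool.Agent.Helper381.Loc

theorem scc_local_eps
    (hmid : ∀ x y : M, ∃ m : M, dist x m = dist x y / 2 ∧ dist m y = dist x y / 2)
    {ρ ε : ℝ} (hρ0 : 0 < ρ) (hρ1 : ρ ≤ c.r₁) (hρτ : ρ < c.τ)
    (hsmall : c.C * ρ ^ 2 + c.C * ρ / 2 + c.C * ρ / 4 ≤ ε * c.lam) {z u v : E}
    (hz : z ∈ ball c.x₀ (ρ / (2 + 2 * c.L ^ 2))) (hu : u ∈ ball c.x₀ (ρ / (2 + 2 * c.L ^ 2)))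
    (hv : v ∈ ball c.x₀ (ρ / (2 + 2 * c.L ^ 2))) :
    (dist (c.ψ z) (c.ψ u) ^ 2 + dist (c.ψ z) (c.ψ v) ^ 2) / 2 -
        (1 / 4 + ε) * c.G c.x₀ (u - v) (u - v) ≤
      dist (c.ψ z) (c.ψ ((1 / 2 : ℝ) • (u + v))) ^ 2 := by
  have hε : 0 ≤ ε := by
    have h1 := c.Cpos
    have h2 : 0 ≤ ε * c.lam := le_trans (by positivity) hsmall
    exact nonneg_of_mul_nonneg_left h2 c.lampos
  have hL := c.one_le_L
  set ρ₀ := ρ / (2 + 2 * c.L ^ 2) with hρ₀
  have hρρ : ρ = ρ₀ * (2 + 2 * c.L ^ 2) := by rw [hρ₀]; field_simp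
  have hρ₀pos : 0 < ρ₀ := by positivity
  have hA : 2 * c.L ^ 2 * ρ₀ ≤ ρ := by rw [hρρ]; nlinarith
  have hB : (1 + 2 * c.L ^ 2) * ρ₀ ≤ ρ := by rw [hρρ]; nlinarith
  have hr1r : ρ ≤ c.r := hρ1.trans (by linarith [c.r₁_lt, c.r₁pos])
  set e : E := (1 / 2 : ℝ) • (u - v) with he
  have hen : ‖e‖ ≤ ρ₀ := by
    have h1 := dist_triangle_right u v c.x₀
    rw [mem_ball] at hu hv
    rw [he, norm_smul, ← dist_eq_norm]
    have : ‖(1 / 2 : ℝ)‖ = 1 / 2 := by norm_num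
    rw [this]
    linarith
  have hm := half_mem_ball hu hv
  rw [tsub_le_iff_right]
  have hQe : c.G c.x₀ (u - v) (u - v) = 4 * c.G c.x₀ e e := by
    rw [he]
    simp only [map_smul, LinearMap.smul_apply, smul_eq_mul]
    ring
  rw [hQe]
  apply le_of_forall_pow (K := 2 * (c.C₃ * ρ ^ 3))
  intro k
  obtain ⟨m, m0, m1, hmb, hmd, hmdist⟩ := c.chain_in_chart hmid hρ1 hρτ hz hm k
  set n := 2 ^ k with hn
  have hnpos : 0 < n := by positivity
  have hn' : (0 : ℝ) < n := by exact_mod_cast hnpos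
  have hfrac : ∀ i ≤ n, ‖((i : ℝ) / n) • e‖ ≤ ρ₀ := by
    intro i hi
    rw [norm_smul, Real.norm_of_nonneg (by positivity)]
    have h1 : (i : ℝ) / n ≤ 1 := by
      rw [div_le_one hn']; exact_mod_cast hi
    have := norm_nonneg e
    nlinarith
  have hmr : ∀ i ≤ n, m i ∈ ball c.x₀ ρ := fun i hi => ball_subset_ball hB (hmb i hi)
  have hap : ∀ i ≤ n, m i + ((i : ℝ) / n) • e ∈ ball c.x₀ ρ := by
    intro i hi
    have h1 := hmb i hi
    rw [mem_ball, dist_eq_norm] at h1 ⊢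
    have h2 : m i + ((i : ℝ) / n) • e - c.x₀ = (m i - c.x₀) + ((i : ℝ) / n) • e := by abel
    rw [h2]
    have h3 := norm_add_le (m i - c.x₀) (((i : ℝ) / n) • e)
    have h4 := hfrac i hi
    rw [hρρ]; nlinarith
  have ham : ∀ i ≤ n, m i - ((i : ℝ) / n) • e ∈ ball c.x₀ ρ := by
    intro i hi
    have h1 := hmb i hi
    rw [mem_ball, dist_eq_norm] at h1 ⊢
    have h2 : m i - ((i : ℝ) / n) • e - c.x₀ = (m i - c.x₀) - ((i : ℝ) / n) • e := by abel
    rw [h2]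
    have h3 := norm_sub_le (m i - c.x₀) (((i : ℝ) / n) • e)
    have h4 := hfrac i hi
    rw [hρρ]; nlinarith
  have hstep : ∀ i, (((i + 1 : ℕ) : ℝ) / n) • e - ((i : ℝ) / n) • e = ((1 : ℝ) / n) • e := by
    intro i
    push_cast
    have : (((i : ℝ) + 1) / n) = (i : ℝ) / n + 1 / n := by ring
    rw [this]
    module
  have hstepn : ‖((1 : ℝ) / n) • e‖ ≤ ρ₀ / n := by
    rw [norm_smul, Real.norm_of_nonneg (by positivity)]
    have : ρ₀ / n = 1 / n * ρ₀ := by ring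
    rw [this]
    gcongr
  have hmd' : ∀ i < n, ‖m (i + 1) - m i‖ ≤ ρ / n := fun i hi => (hmd i hi).trans (by gcongr)
  have hpd : ∀ i < n, ‖(m (i + 1) + (((i + 1 : ℕ) : ℝ) / n) • e) - (m i + ((i : ℝ) / n) • e)‖ ≤
      ρ / n := by
    intro i hi
    have : (m (i + 1) + (((i + 1 : ℕ) : ℝ) / n) • e) - (m i + ((i : ℝ) / n) • e) =
      (m (i + 1) - m i) + ((((i + 1 : ℕ) : ℝ) / n) • e - ((i : ℝ) / n) • e) := by abel
    rw [this, hstep]
    refine (norm_add_le _ _).trans ?_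
    have h1 := hmd i hi
    have h2 : 2 * c.L ^ 2 * ρ₀ / n + ρ₀ / n ≤ ρ / n := by
      rw [← add_div]
      gcongr
      rw [hρρ]; nlinarith
    linarith
  have hqd : ∀ i < n, ‖(m (i + 1) - (((i + 1 : ℕ) : ℝ) / n) • e) - (m i - ((i : ℝ) / n) • e)‖ ≤
      ρ / n := by
    intro i hi
    have : (m (i + 1) - (((i + 1 : ℕ) : ℝ) / n) • e) - (m i - ((i : ℝ) / n) • e) =
      (m (i + 1) - m i) - ((((i + 1 : ℕ) : ℝ) / n) • e - ((i : ℝ) / n) • e) := by abel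
    rw [this, hstep]
    refine (norm_sub_le _ _).trans ?_
    have h1 := hmd i hi
    have h2 : 2 * c.L ^ 2 * ρ₀ / n + ρ₀ / n ≤ ρ / n := by
      rw [← add_div]
      gcongr
      rw [hρρ]; nlinarith
    linarith
  have e1 := energy_scc_eps c.toMetCoef hε hr1r hρ0.le hsmall hnpos m e hap ham hmd'
  have e2 := c.energy_le hnpos m (fun i hi => ball_subset_ball hρ1 (hmr i hi)) hmd' hmdist
  have e3 := c.dist_sq_le_energy (B := ρ) hnpos (fun i => m i + ((i : ℝ) / n) • e)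
    (fun i hi => ball_subset_ball hρ1 (hap i hi)) hpd
  have e4 := c.dist_sq_le_energy (B := ρ) hnpos (fun i => m i - ((i : ℝ) / n) • e)
    (fun i hi => ball_subset_ball hρ1 (ham i hi)) hqd
  have hnn : (n : ℝ) / n = 1 := div_self hn'.ne'
  simp only [m0, m1, hnn, Nat.cast_zero, zero_div, zero_smul, add_zero, sub_zero, one_smul] at e3 e4
  have f1 : (1 / 2 : ℝ) • (u + v) + e = u := by rw [he]; module
  have f2 : (1 / 2 : ℝ) • (u + v) - e = v := by rw [he]; module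
  rw [f1] at e3
  rw [f2] at e4
  have e6 : 2 * (c.C₃ * ρ ^ 3) / (n : ℝ) = 2 * (c.C₃ * ρ ^ 3 / n) := by ring
  rw [e6]
  linarith


end

theorem main : Pool.Agent.W201.NT.S_SC := by
  intro M _ E _ _ c hmid ρ ε hρ0 hρ1 hρτ hsmall z u v hz hu hv
  exact scc_local_eps c hmid hρ0 hρ1 hρτ hsmall hz hu hv

end Pool.Agent.W249.NT

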